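import Mathlib

namespace Pool.Agent.Results.MP_ed46bc_co.Dual

open Finset

/-- `P(G,k,A)`: ordered `k`-tuples of elements of `A` whose sum lies in `A`. -/
def PA {G : Type} [AddCommGroup G] [DecidableEq G] (k : ℕ) (A : Finset G) : ℕ :=
  ((Fintype.piFinset (fun _ : Fin k => A)).filter (fun a => ∑ i, a i ∈ A)).card

/-- `P(G,k,m)`: the minimum of `P(G,k,A)` over the `m`-subsets `A` of `G`. -/
noncomputable def P (G : Type) [AddCommGroup G] [DecidableEq G] (k m : ℕ) : ℕ :=
  sInf {p | ∃ A : Finset G, A.card = m ∧ PA k A = p}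

lemma exists_sub : ∀ (t : ℕ) (G : Type) [AddCommGroup G] [Finite G], t ∣ Nat.card G →
    ∃ H : AddSubgroup G, Nat.card H = t := by
  intro t
  induction t using Nat.strong_induction_on with
  | _ t ih =>
    intro G _ _ ht
    have hpos : 0 < Nat.card G := Nat.card_pos
    by_cases h1 : t = 1
    · exact ⟨⊥, by rw [h1]; simp⟩
    obtain ⟨p, hp, s, rfl⟩ := Nat.exists_prime_and_dvd h1
    have : Fact p.Prime := ⟨hp⟩
    obtain ⟨x, hx⟩ := exists_prime_addOrderOf_dvd_card' (G := G) p (Dvd.dvd.trans (Dvd.intro s rfl) ht)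
    have hK : Nat.card (AddSubgroup.zmultiples x) = p := by rw [Nat.card_zmultiples, hx]
    have hQ := AddSubgroup.card_eq_card_quotient_mul_card_addSubgroup (AddSubgroup.zmultiples x)
    rw [hK] at hQ
    have hs0 : 0 < s := by
      rcases Nat.eq_zero_or_pos s with h | h
      · rw [h, mul_zero, zero_dvd_iff] at ht; omega
      · exact h
    have hs : s ∣ Nat.card (G ⧸ AddSubgroup.zmultiples x) := by
      rw [hQ, mul_comm p s] at ht
      exact Nat.dvd_of_mul_dvd_mul_right hp.pos ht
    obtain ⟨H', hH'⟩ := ih s (by have := hp.one_lt; nlinarith) _ hs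
    refine ⟨H'.comap (QuotientAddGroup.mk' (AddSubgroup.zmultiples x)), ?_⟩
    have e1 := AddSubgroup.card_mul_index
      (H'.comap (QuotientAddGroup.mk' (AddSubgroup.zmultiples x)))
    have e2 := AddSubgroup.card_mul_index H'
    rw [AddSubgroup.index_comap_of_surjective _ (QuotientAddGroup.mk'_surjective _)] at e1
    rw [hH'] at e2
    have hi : 0 < H'.index := Nat.pos_of_ne_zero AddSubgroup.index_ne_zero_of_finite
    refine Nat.eq_of_mul_eq_mul_right hi ?_
    rw [e1, hQ, ← e2]
    ring

section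
variable {G : Type} [AddCommGroup G] [DecidableEq G] [Fintype G]

def F (A : Finset G) (k : ℕ) (x : G) : ℤ :=
  ∑ a : Fin k → G, if (∀ i, a i ∈ A) ∧ ∑ i, a i = x then 1 else 0

lemma F_succ (A : Finset G) (k : ℕ) (x : G) : F A (k + 1) x = ∑ y ∈ A, F A k (x - y) := by
  unfold F
  rw [← (Fin.consEquiv (fun _ : Fin (k + 1) => G)).sum_comp, Fintype.sum_prod_type,
    ← Finset.sum_subset (Finset.subset_univ A)]
  · refine Finset.sum_congr rfl (fun y hy => Finset.sum_congr rfl (fun a _ => ?_))
    refine if_congr ?_ rfl rfl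
    simp only [Fin.consEquiv_apply, Fin.forall_fin_succ, Fin.sum_univ_succ, Fin.cons_zero,
      Fin.cons_succ, hy, true_and]
    rw [eq_sub_iff_add_eq']
  · intro y _ hy
    refine Finset.sum_eq_zero (fun a _ => if_neg (fun h => hy ?_))
    simpa using h.1 0

lemma F_total (A : Finset G) (k : ℕ) : ∑ x, F A k x = (A.card : ℤ) ^ k := by
  induction k with
  | zero => simp [F]
  | succ k ih =>
    rw [Finset.sum_congr rfl (fun x _ => F_succ A k x), Finset.sum_comm]
    have : ∀ y ∈ A, ∑ x, F A k (x - y) = (A.card : ℤ) ^ k := by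
      intro y _
      rw [← ih]
      exact (Equiv.subRight y).sum_comp (F A k)
    rw [Finset.sum_congr rfl this, Finset.sum_const, nsmul_eq_mul, pow_succ']

lemma PA_eq (A : Finset G) (k : ℕ) : (PA k A : ℤ) = ∑ x ∈ A, F A k x := by
  unfold PA F
  rw [Finset.sum_comm, Finset.card_filter]
  push_cast
  rw [← Finset.sum_subset (Finset.subset_univ (Fintype.piFinset (fun _ : Fin k => A)))]
  · refine Finset.sum_congr rfl (fun a ha => ?_)
    have h : ∀ i, a i ∈ A := Fintype.mem_piFinset.1 ha
    simp only [h, implies_true, true_and]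
    rw [Finset.sum_ite_eq]
  · intro a _ ha
    refine Finset.sum_eq_zero (fun x _ => if_neg (fun h => ha (Fintype.mem_piFinset.2 h.1)))

lemma F_compl (B : Finset G) (k : ℕ) : ∃ c : ℤ,
    ((Bᶜ.card : ℤ) + B.card) * c = (Bᶜ.card : ℤ) ^ k - (-1) ^ k * (B.card : ℤ) ^ k ∧
    ∀ x, F Bᶜ k x = c + (-1) ^ k * F B k x := by
  induction k with
  | zero => exact ⟨0, by simp, fun x => by simp [F]⟩
  | succ k ih =>
    obtain ⟨c, hc, hF⟩ := ih
    refine ⟨(Bᶜ.card : ℤ) * c + (-1) ^ k * (B.card : ℤ) ^ k, ?_, fun x => ?_⟩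
    · rw [pow_succ, pow_succ, pow_succ]
      linear_combination (Bᶜ.card : ℤ) * hc
    · have h1 : ∑ y ∈ Bᶜ, F B k (x - y) + ∑ y ∈ B, F B k (x - y) = (B.card : ℤ) ^ k := by
        rw [Finset.sum_compl_add_sum, ← F_total B k]
        exact (Equiv.subLeft x).sum_comp (F B k)
      rw [F_succ, F_succ, Finset.sum_congr rfl (fun y _ => hF (x - y)), Finset.sum_add_distrib,
        Finset.sum_const, nsmul_eq_mul, ← Finset.mul_sum, pow_succ]
      linear_combination (-1) ^ k * h1

lemma dual (B : Finset G) (k : ℕ) :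
    (Fintype.card G : ℤ) * (PA k Bᶜ + (-1) ^ k * PA k B) =
      (Bᶜ.card : ℤ) ^ (k + 1) + (-1) ^ k * (B.card : ℤ) ^ (k + 1) := by
  obtain ⟨c, hc, hF⟩ := F_compl B k
  have h1 : ∑ y ∈ Bᶜ, F B k y + ∑ y ∈ B, F B k y = (B.card : ℤ) ^ k := by
    rw [Finset.sum_compl_add_sum, F_total B k]
  have h2 : (Fintype.card G : ℤ) = (Bᶜ.card : ℤ) + B.card := by
    exact_mod_cast (Finset.card_compl_add_card B).symm
  rw [PA_eq, PA_eq, Finset.sum_congr rfl (fun y _ => hF y), Finset.sum_add_distrib,
    Finset.sum_const, nsmul_eq_mul, ← Finset.mul_sum, h2, pow_succ, pow_succ]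
  linear_combination (Bᶜ.card : ℤ) * hc + ((Bᶜ.card : ℤ) + B.card) * (-1) ^ k * h1

omit [Fintype G] in
lemma PA_le (B : Finset G) (k : ℕ) : PA k B ≤ B.card ^ k := by
  refine (Finset.card_filter_le _ _).trans ?_
  simp

lemma P_mem (k m : ℕ) (hm : m ≤ Fintype.card G) :
    ∃ A : Finset G, A.card = m ∧ PA k A = P G k m := by
  obtain ⟨A, -, hA⟩ := Finset.exists_subset_card_eq (s := (Finset.univ : Finset G)) (n := m)
    (by simpa using hm)
  exact Nat.sInf_mem (s := {p | ∃ A : Finset G, A.card = m ∧ PA k A = p}) ⟨_, A, hA, rfl⟩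

omit [Fintype G] in
lemma P_le (k : ℕ) (A : Finset G) : P G k A.card ≤ PA k A := Nat.sInf_le ⟨A, rfl, rfl⟩

lemma sub_full (t k : ℕ) (ht : t ∣ Fintype.card G) :
    ∃ B : Finset G, B.card = t ∧ PA k B = t ^ k := by
  classical
  obtain ⟨H, hH⟩ := exists_sub t G (by rwa [Nat.card_eq_fintype_card])
  have hc : (Finset.univ.filter (fun x => x ∈ H)).card = t := by
    rw [← hH, Nat.card_eq_fintype_card, Fintype.card_subtype]
  refine ⟨Finset.univ.filter (fun x => x ∈ H), hc, ?_⟩
  unfold PA
  rw [Finset.filter_true_of_mem, Fintype.card_piFinset]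
  · simp only [hc, Finset.prod_const, Finset.card_univ, Fintype.card_fin]
  · intro a ha
    refine Finset.mem_filter.2 ⟨Finset.mem_univ _, H.sum_mem (fun i _ => ?_)⟩
    exact (Finset.mem_filter.1 (Fintype.mem_piFinset.1 ha i)).2

lemma full_dvd (B : Finset G) (j : ℕ) (hB : B.Nonempty) (h : PA (j + 2) B = B.card ^ (j + 2)) :
    B.card ∣ Fintype.card G := by
  classical
  obtain ⟨b0, hb0⟩ := hB
  have hall : ∀ a ∈ Fintype.piFinset (fun _ : Fin (j + 2) => B), ∑ i, a i ∈ B := by
    rw [← Finset.card_filter_eq_iff]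
    unfold PA at h
    rw [h]
    simp
  have hstep : ∀ b ∈ B, B.image (fun c => c + (b + j • b0)) = B := by
    intro b hb
    refine Finset.eq_of_subset_of_card_le (fun x hx => ?_) ?_
    · obtain ⟨c, hc, rfl⟩ := Finset.mem_image.1 hx
      have := hall (Fin.cons c (Fin.cons b (fun _ => b0))) (by
        rw [Fintype.mem_piFinset]
        intro i
        refine Fin.cases ?_ (fun i => ?_) i
        · simpa using hc
        · refine Fin.cases ?_ (fun i => ?_) i
          · simpa using hb
          · simpa using hb0)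
      simpa [Fin.sum_univ_succ] using this
    · rw [Finset.card_image_of_injective _ (add_left_injective _)]
  obtain ⟨H, hH⟩ : ∃ H : AddSubgroup G, ∀ g, g ∈ H ↔ B.image (fun c => c + g) = B := by
    refine ⟨⟨⟨⟨{g | B.image (fun c => c + g) = B}, ?_⟩, ?_⟩, ?_⟩, fun _ => Iff.rfl⟩
    · intro a b ha hb
      have ha' : B.image (fun c => c + a) = B := ha
      have hb' : B.image (fun c => c + b) = B := hb
      show B.image (fun c => c + (a + b)) = B
      calc B.image (fun c => c + (a + b)) = (B.image (fun c => c + a)).image (fun c => c + b) := by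
            rw [Finset.image_image]; congr 1; funext c; simp [add_assoc]
        _ = B := by rw [ha', hb']
    · show B.image (fun c => c + 0) = B
      simp
    · intro a ha
      have ha' : B.image (fun c => c + a) = B := ha
      show B.image (fun c => c + -a) = B
      calc B.image (fun c => c + -a) = (B.image (fun c => c + a)).image (fun c => c + -a) := by
            rw [ha']
        _ = B := by rw [Finset.image_image]; simp [Function.comp_def]
  have he : B = (Finset.univ.filter (fun x => x ∈ H)).image (fun c => b0 + c) := by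
    ext b
    simp only [Finset.mem_image, Finset.mem_filter, Finset.mem_univ, true_and]
    constructor
    · intro hb
      refine ⟨b - b0, ?_, by abel⟩
      have := H.sub_mem ((hH _).2 (hstep b hb)) ((hH _).2 (hstep b0 hb0))
      rwa [add_sub_add_right_eq_sub] at this
    · rintro ⟨g, hg, rfl⟩
      rw [← (hH g).1 hg]
      exact Finset.mem_image_of_mem (fun c => c + g) hb0
  have hc : B.card = Nat.card H := by
    rw [he, Finset.card_image_of_injective _ (add_right_injective _), Nat.card_eq_fintype_card,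
      Fintype.card_subtype]
  rw [hc, ← Nat.card_eq_fintype_card]
  exact AddSubgroup.card_addSubgroup_dvd_card H
end

lemma all_parts (G : Type) [AddCommGroup G] [DecidableEq G] [Fintype G] (k t : ℕ)
    (ht1 : 1 ≤ t) (ht : t < Fintype.card G) :
    (Odd k → Fintype.card G * P G k (Fintype.card G - t) + t ^ (k + 1) =
      (Fintype.card G - t) ^ (k + 1) + Fintype.card G * P G k t) ∧
    (Even k → 2 ≤ k →
      (Fintype.card G - t) ^ (k + 1) + t ^ (k + 1) ≤
        Fintype.card G * P G k (Fintype.card G - t) + Fintype.card G * t ^ k ∧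
      ((Fintype.card G - t) ^ (k + 1) + t ^ (k + 1) =
        Fintype.card G * P G k (Fintype.card G - t) + Fintype.card G * t ^ k ↔
          t ∣ Fintype.card G)) := by
  obtain ⟨A, hA, hPA⟩ := P_mem (G := G) k (Fintype.card G - t) (by omega)
  have hAc : Aᶜ.card = t := by rw [Finset.card_compl, hA]; omega
  have dA := dual Aᶜ k
  rw [compl_compl, hA, hAc, hPA] at dA
  have hn : (0 : ℤ) < Fintype.card G := by exact_mod_cast (by omega : 0 < Fintype.card G)
  refine ⟨fun hk => ?_, fun hk hk2 => ?_⟩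
  · obtain ⟨B, hB, hPB⟩ := P_mem (G := G) k t ht.le
    have hBc : Bᶜ.card = Fintype.card G - t := by rw [Finset.card_compl, hB]
    have dB := dual B k
    rw [hBc, hB, hPB] at dB
    rw [hk.neg_one_pow] at dA dB
    have l1 := P_le k Aᶜ
    have l2 := P_le k Bᶜ
    rw [hAc] at l1
    rw [hBc] at l2
    have l1' : (P G k t : ℤ) ≤ PA k Aᶜ := by exact_mod_cast l1
    have l2' : (P G k (Fintype.card G - t) : ℤ) ≤ PA k Bᶜ := by exact_mod_cast l2
    have m1 := mul_le_mul_of_nonneg_left l1' hn.le
    have m2 := mul_le_mul_of_nonneg_left l2' hn.le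
    zify
    linarith
  · rw [hk.neg_one_pow] at dA
    have u1 := PA_le Aᶜ k
    rw [hAc] at u1
    have u1' : (PA k Aᶜ : ℤ) ≤ (t : ℤ) ^ k := by exact_mod_cast u1
    have m1 := mul_le_mul_of_nonneg_left u1' hn.le
    refine ⟨by zify; linarith, fun h => ?_, fun h => ?_⟩
    · obtain ⟨j, rfl⟩ : ∃ j, k = j + 2 := ⟨k - 2, by omega⟩
      have h' : (Fintype.card G : ℤ) * (PA (j + 2) Aᶜ : ℤ) =
          (Fintype.card G : ℤ) * (t : ℤ) ^ (j + 2) := by
        zify at h
        linarith
      have h2 : PA (j + 2) Aᶜ = t ^ (j + 2) := by exact_mod_cast mul_left_cancel₀ hn.ne' h'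
      rw [← hAc]
      exact full_dvd Aᶜ j (Finset.card_pos.1 (by omega)) (by rw [h2, hAc])
    · obtain ⟨B, hB, hPB⟩ := sub_full (G := G) t k h
      have hBc : Bᶜ.card = Fintype.card G - t := by rw [Finset.card_compl, hB]
      have dB := dual B k
      rw [hBc, hB, hPB, hk.neg_one_pow] at dB
      have l2 := P_le k Bᶜ
      rw [hBc] at l2
      have l2' : (P G k (Fintype.card G - t) : ℤ) ≤ PA k Bᶜ := by exact_mod_cast l2
      have m2 := mul_le_mul_of_nonneg_left l2' hn.le
      push_cast at dB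
      zify
      linarith

theorem result (G : Type) [AddCommGroup G] [DecidableEq G] [Fintype G] (k t : ℕ)
    (ht1 : 1 ≤ t) (ht : t < Fintype.card G) (hk : Odd k) :
    Fintype.card G * P G k (Fintype.card G - t) + t ^ (k + 1) =
      (Fintype.card G - t) ^ (k + 1) + Fintype.card G * P G k t :=
  (all_parts G k t ht1 ht).1 hk

end Pool.Agent.Results.MP_ed46bc_co.Dual
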