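import Mathlib
import Pool.Agent.Results.MP_ed46bc_co.Dual

namespace Pool.Agent.Results.MP_ed46bc_co.EvenK

open Pool.Agent.Results.MP_ed46bc_co.Dual

theorem result (G : Type) [AddCommGroup G] [DecidableEq G] [Fintype G] (k t : ℕ)
    (ht1 : 1 ≤ t) (ht : t < Fintype.card G) (hk : Even k) (hk2 : 2 ≤ k) :
    (Fintype.card G - t) ^ (k + 1) + t ^ (k + 1) =
      Fintype.card G * P G k (Fintype.card G - t) + Fintype.card G * t ^ k ↔
        t ∣ Fintype.card G :=
  ((all_parts G k t ht1 ht).2 hk hk2).2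

end Pool.Agent.Results.MP_ed46bc_co.EvenK
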